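import Pool.Agent.Y472.L.Defs

/-!
# The Turk's head links: expansion of the logarithm of the summand, with the coefficients
-/

set_option autoImplicit false

namespace Pool.Agent.Y865.TA

open Finset Filter Topology MeasureTheory Pool.Agent.W711.HT Pool.Agent.Y472.K Pool.Agent.Y472.L
  Pool.Agent.Y363.TKX
open scoped Real

section gen

variable {ι : Type} [Fintype ι] {ws : ι → ℝ} {K : ℕ}

theorem lg_mul {Ψ₁ Ψ₂ : (ι → ℂ) × ℂ → ℂ} {T₁ T₂ : ℕ → (ι → ℕ) → ℝ → ℂ}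
    {τ₁ τ₂ : ℕ → (ι → ℂ) × ℂ → ℂ}
    (h₁ : LG Ψ₁ ws K T₁ τ₁) (h₂ : LG Ψ₂ ws K T₂ τ₂) :
    LG (fun w => Ψ₁ w + Ψ₂ w) ws K (fun N k x => T₁ N k x * T₂ N k x)
      (fun l w => τ₁ l w + τ₂ l w) := by
  obtain ⟨r₁, C₁, hr₁, H₁⟩ := h₁
  obtain ⟨r₂, C₂, hr₂, H₂⟩ := h₂
  refine ⟨min r₁ r₂, C₁ + C₂, lt_min hr₁ hr₂, ?_⟩
  filter_upwards [H₁, H₂] with N h1 h2 k x hk hx
  obtain ⟨e₁, he₁, t₁⟩ := h1 k x (fun i => (hk i).trans_le (min_le_left _ _))
    (hx.trans_le (min_le_left _ _))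
  obtain ⟨e₂, he₂, t₂⟩ := h2 k x (fun i => (hk i).trans_le (min_le_right _ _))
    (hx.trans_le (min_le_right _ _))
  refine ⟨e₁ + e₂, ?_, ?_⟩
  · refine (norm_add_le _ _).trans ?_
    rw [add_div]
    exact add_le_add he₁ he₂
  · rw [t₁, t₂, ← Complex.exp_add]
    congr 1
    simp_rw [add_div]
    rw [Finset.sum_add_distrib]
    ring

theorem lg_one : LG (fun _ => 0) ws K (fun _ _ _ => (1 : ℂ)) (fun _ _ => 0) := by
  refine ⟨1, 0, one_pos, ?_⟩
  filter_upwards with N k x _ _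
  refine ⟨0, by simp, ?_⟩
  simp

theorem lg_prod {α : Type} (s : Finset α) (Ψ : α → (ι → ℂ) × ℂ → ℂ)
    (T : α → ℕ → (ι → ℕ) → ℝ → ℂ) (τ : α → ℕ → (ι → ℂ) × ℂ → ℂ)
    (h : ∀ a ∈ s, LG (Ψ a) ws K (T a) (τ a)) :
    LG (fun w => ∑ a ∈ s, Ψ a w) ws K (fun N k x => ∏ a ∈ s, T a N k x)
      (fun l w => ∑ a ∈ s, τ a l w) := by
  classical
  induction s using Finset.induction_on with
  | empty => simpa using lg_one
  | insert a s ha ih =>
    have h1 := lg_mul (h a (mem_insert_self _ _)) (ih fun b hb => h b (mem_insert_of_mem hb))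
    simp only [Finset.sum_insert ha, Finset.prod_insert ha]
    exact h1

/-- only large `N` and points near `ws` matter -/
theorem lg_congr {Ψ Ψ' : (ι → ℂ) × ℂ → ℂ} {T T' : ℕ → (ι → ℕ) → ℝ → ℂ}
    {τ τ' : ℕ → (ι → ℂ) × ℂ → ℂ}
    (h : LG Ψ ws K T τ) (hΨ : ∀ w, Ψ w = Ψ' w) (hτ : ∀ l w, τ l w = τ' l w)
    (hT : ∀ᶠ N : ℕ in atTop, ∀ k x, T N k x = T' N k x) : LG Ψ' ws K T' τ' := by
  obtain ⟨r, C, hr, H⟩ := h
  refine ⟨r, C, hr, ?_⟩
  filter_upwards [H, hT] with N h1 h2 k x hk hx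
  obtain ⟨e, he, t⟩ := h1 k x hk hx
  refine ⟨e, he, ?_⟩
  rw [← h2, t, hΨ]
  simp only [hτ]

/-- a function of the variable of the axis with an analytic logarithm -/
theorem lg_axis {f L : ℂ → ℂ} (hK : 1 ≤ K)
    {r₀ : ℝ} (hr₀ : 0 < r₀) (hf : ∀ x : ℝ, |x| < r₀ → f x = Complex.exp (L x)) :
    LG (fun _ => 0) ws K (fun _ _ x => f x) (fun l w => if l = 0 then L w.2 else 0) := by
  refine ⟨r₀, 0, hr₀, ?_⟩
  filter_upwards with N k x _ hx
  refine ⟨0, by simp, ?_⟩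
  rw [hf x hx]
  congr 1
  rw [Finset.sum_eq_single_of_mem 0 (mem_range.2 hK)]
  · simp [cst]
  · intro l _ hl
    simp [hl]

end gen

section fac

variable {ι : Type} [Fintype ι] {ws : ι → ℝ} {K : ℕ}

theorem lg_sd {Lx : ℂ → ℂ} {σ : ℕ → ℂ → ℂ}
    (h : ∀ δ₀ : ℝ, 0 < δ₀ → δ₀ < 1 / 2 → ∀ K : ℕ, ∃ C : ℝ, ∀ᶠ N : ℕ in atTop, ∀ m : ℕ,
      δ₀ * N ≤ m → (m : ℝ) ≤ (1 - δ₀) * N → ∃ e : ℂ, ‖e‖ ≤ C / (N : ℝ) ^ K ∧
        ((√(N : ℝ) : ℝ) : ℂ) / (Sd N m : ℂ) =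
          Complex.exp (N * Lx ((m : ℂ) / N) + ∑ k ∈ range K, σ k ((m : ℂ) / N) / (N : ℂ) ^ k + e))
    (p q : ι) (h0 : 0 < ws p - ws q) (h1 : ws p - ws q < 1) :
    LG (fun w => Lx (w.1 p - w.1 q)) ws K
      (fun N k _ => ((√(N : ℝ) : ℝ) : ℂ) / (Sd N (k p - k q) : ℂ))
      (fun l w => σ l (w.1 p - w.1 q)) := by
  obtain ⟨δ₀, hδ₀⟩ : ∃ δ₀ : ℝ, δ₀ = min (ws p - ws q) (1 - (ws p - ws q)) / 2 := ⟨_, rfl⟩
  have d0 : 0 < δ₀ := by
    rw [hδ₀]
    exact half_pos (lt_min h0 (by linarith))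
  have d1 : 2 * δ₀ ≤ ws p - ws q := by
    rw [hδ₀]
    linarith [min_le_left (ws p - ws q) (1 - (ws p - ws q))]
  have d2 : 2 * δ₀ ≤ 1 - (ws p - ws q) := by
    rw [hδ₀]
    linarith [min_le_right (ws p - ws q) (1 - (ws p - ws q))]
  obtain ⟨C, hC⟩ := h δ₀ d0 (by linarith) K
  refine ⟨δ₀ / 2, C, half_pos d0, ?_⟩
  filter_upwards [hC, eventually_gt_atTop 0] with N hN hN0 k x hk _
  have hNr : (0 : ℝ) < N := by exact_mod_cast hN0
  have kp := abs_lt.1 (hk p)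
  have kq := abs_lt.1 (hk q)
  have hle : k q ≤ k p := by
    have h2 : (k q : ℝ) / N < (k p : ℝ) / N := by linarith [kp.1, kq.2]
    have h3 : (k q : ℝ) < k p := (div_lt_div_iff_of_pos_right hNr).1 h2
    exact_mod_cast h3.le
  have hm : ((k p - k q : ℕ) : ℝ) = (k p : ℝ) - k q := by
    rw [Nat.cast_sub hle]
  have hm2 : ((k p - k q : ℕ) : ℝ) / N = (k p : ℝ) / N - (k q : ℝ) / N := by
    rw [hm, sub_div]
  have hmN : ((k p - k q : ℕ) : ℝ) = ((k p : ℝ) / N - (k q : ℝ) / N) * N := by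
    rw [← hm2]
    field_simp
  obtain ⟨e, he, t⟩ := hN (k p - k q)
    (by rw [hmN]; exact mul_le_mul_of_nonneg_right (by linarith [kp.1, kq.2]) hNr.le)
    (by rw [hmN]; exact mul_le_mul_of_nonneg_right (by linarith [kp.2, kq.1]) hNr.le)
  refine ⟨e, he, ?_⟩
  have e1 : ((k p - k q : ℕ) : ℂ) / N = ((((k p : ℝ) / N : ℝ) : ℂ)) - ((((k q : ℝ) / N : ℝ) : ℂ)) := by
    rw [Nat.cast_sub hle]
    push_cast
    rw [sub_div]
  rw [t, e1]
  rfl

theorem lg_q {Θ : ℂ → ℂ → ℂ} {θ : ℕ → ℂ → ℂ → ℂ} {y r₀ : ℝ} (hr₀ : 0 < r₀)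
    (h : ∀ K : ℕ, ∃ C : ℝ, ∀ᶠ N : ℕ in atTop, ∀ j i : ℕ, j ≤ i → i ≤ N → ∀ x : ℝ, |x| < r₀ →
      ∃ e : ℂ, ‖e‖ ≤ C / (N : ℝ) ^ K ∧ Pq N j i (x + y * Complex.I) =
        Complex.exp (N * (Θ ((i : ℂ) / N) (x + y * Complex.I) -
            Θ ((j : ℂ) / N) (x + y * Complex.I)) +
          ∑ k ∈ range K, (θ k ((i : ℂ) / N) (x + y * Complex.I) -
            θ k ((j : ℂ) / N) (x + y * Complex.I)) / (N : ℂ) ^ k + e))
    (p q : ι) (hq0 : 0 ≤ ws q) (hqp : ws q < ws p) (hp1 : ws p < 1) :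
    LG (fun w => Θ (w.1 p) (w.2 + y * Complex.I) - Θ (w.1 q) (w.2 + y * Complex.I)) ws K
      (fun N k x => Pq N (k q) (k p) (x + y * Complex.I))
      (fun l w => θ l (w.1 p) (w.2 + y * Complex.I) - θ l (w.1 q) (w.2 + y * Complex.I)) := by
  obtain ⟨C, hC⟩ := h K
  refine ⟨min r₀ (min ((ws p - ws q) / 2) (1 - ws p)), C,
    lt_min hr₀ (lt_min (by linarith) (by linarith)), ?_⟩
  filter_upwards [hC, eventually_gt_atTop 0] with N hN hN0 k x hk hx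
  have hNr : (0 : ℝ) < N := by exact_mod_cast hN0
  have hr1 : min r₀ (min ((ws p - ws q) / 2) (1 - ws p)) ≤ (ws p - ws q) / 2 :=
    (min_le_right _ _).trans (min_le_left _ _)
  have hr2 : min r₀ (min ((ws p - ws q) / 2) (1 - ws p)) ≤ 1 - ws p :=
    (min_le_right _ _).trans (min_le_right _ _)
  have kp := abs_lt.1 ((hk p).trans_le hr1)
  have kq := abs_lt.1 ((hk q).trans_le hr1)
  have kp' := abs_lt.1 ((hk p).trans_le hr2)
  have hle : k q ≤ k p := by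
    have h2 : (k q : ℝ) / N < (k p : ℝ) / N := by linarith [kp.1, kq.2]
    have h3 : (k q : ℝ) < k p := (div_lt_div_iff_of_pos_right hNr).1 h2
    exact_mod_cast h3.le
  have hleN : k p ≤ N := by
    have h2 : (k p : ℝ) / N < 1 := by linarith [kp'.2]
    rw [div_lt_one hNr] at h2
    exact_mod_cast h2.le
  obtain ⟨e, he, t⟩ := hN (k q) (k p) hle hleN x (hx.trans_le (min_le_left _ _))
  refine ⟨e, he, ?_⟩
  have e1 : ∀ i, ((k i : ℕ) : ℂ) / N = ((((k i : ℝ) / N : ℝ) : ℂ)) := by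
    intro i
    push_cast
    rfl
  rw [t, e1, e1]
  rfl

theorem lg_v (p q s : ι) :
    LG (fun w => Complex.I * π * ((w.1 p - w.1 q) * w.1 s)) ws K
      (fun N k _ => vN N ^ (((k p : ℤ) - k q) * k s)) (fun _ _ => 0) := by
  refine ⟨1, 0, one_pos, ?_⟩
  filter_upwards [eventually_gt_atTop 0] with N hN0 k x _ _
  have hNc : (N : ℂ) ≠ 0 := by exact_mod_cast hN0.ne'
  refine ⟨0, by simp, ?_⟩
  rw [vN, ← Complex.exp_int_mul]
  congr 1
  simp only [cst, zero_div, Finset.sum_const_zero, add_zero]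
  push_cast
  field_simp

/-- the kernel -/
theorem lg_k {y : ℝ} (hy : 0 < y) :
    LG (fun w => Complex.I * w.2 - y) ws K
      (fun N _ x => Pool.Agent.Y391.CB.kN N (x + y * Complex.I)) (fun _ _ => 0) := by
  -- the size of the error
  have hto : Tendsto (fun N : ℕ => (N : ℝ) ^ K * Real.exp (-(N * y))) atTop (𝓝 0) := by
    have h1 := (Real.tendsto_pow_mul_exp_neg_atTop_nhds_zero K).comp
      (tendsto_natCast_atTop_atTop.atTop_mul_const hy : Tendsto (fun N : ℕ => (N : ℝ) * y) atTop atTop)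
    have h2 := h1.const_mul ((1 / y) ^ K)
    rw [mul_zero] at h2
    refine h2.congr fun N => ?_
    have e : (1 / y) ^ K * y ^ K = 1 := by
      rw [← mul_pow, one_div, inv_mul_cancel₀ hy.ne', one_pow]
    simp only [Function.comp]
    rw [mul_pow]
    linear_combination ((N : ℝ) ^ K * Real.exp (-(N * y))) * e
  refine ⟨1, 4, one_pos, ?_⟩
  filter_upwards [hto.eventually_le_const (by norm_num : (0 : ℝ) < 1 / 2),
    eventually_gt_atTop 0] with N hN hN0 k x _ _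
  have hNr : (0 : ℝ) < N := by exact_mod_cast hN0
  have hN1 : (1 : ℝ) ≤ (N : ℝ) ^ K := one_le_pow₀ (by exact_mod_cast hN0)
  obtain ⟨q, hq⟩ : ∃ q : ℂ, q = Complex.exp (Complex.I * N * (x + y * Complex.I)) := ⟨_, rfl⟩
  have hqn : ‖q‖ = Real.exp (-(N * y)) := by
    rw [hq, Complex.norm_exp]
    congr 1
    simp
  have hqh : ‖q‖ ≤ 1 / 2 := by
    rw [hqn]
    have := Real.exp_pos (-(N * y))
    nlinarith
  have hqK : ‖q‖ ≤ 1 / (N : ℝ) ^ K := by
    rw [hqn, le_div_iff₀ (by positivity)]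
    linarith
  have hq1 : 1 - q ≠ 0 := by
    intro h
    have : q = 1 := by linear_combination -h
    rw [this, norm_one] at hqh
    norm_num at hqh
  have hlog : ‖Complex.log (1 - q)‖ ≤ 2 * ‖q‖ := by
    have h1 := Complex.norm_log_one_add_half_le_self (z := -q) (by rwa [norm_neg])
    rw [norm_neg] at h1
    rw [sub_eq_add_neg]
    linarith [norm_nonneg q]
  refine ⟨-2 * Complex.log (1 - q), ?_, ?_⟩
  · rw [norm_mul, norm_neg]
    have : ‖(2 : ℂ)‖ = 2 := by norm_num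
    rw [this]
    have h4 : 4 / (N : ℝ) ^ K = 4 * (1 / (N : ℝ) ^ K) := by ring
    rw [h4]
    linarith
  · unfold Pool.Agent.Y391.CB.kN
    rw [← hq]
    simp only [cst, zero_div, Finset.sum_const_zero, add_zero]
    rw [Complex.exp_add]
    have e1 : Complex.exp ((N : ℂ) * (Complex.I * (x : ℂ) - y)) = q := by
      rw [hq]
      congr 1
      linear_combination (-(N : ℂ) * y) * Complex.I_sq
    have e2 : Complex.exp (-2 * Complex.log (1 - q)) = ((1 - q) ^ 2)⁻¹ := by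
      have : -2 * Complex.log (1 - q) = -(Complex.log (1 - q) + Complex.log (1 - q)) := by ring
      rw [this, Complex.exp_neg, Complex.exp_add, Complex.exp_log hq1]
      ring
    rw [e1, e2]
    rfl

end fac

theorem lg_sin {ι : Type} [Fintype ι] {ws : ι → ℝ} {K : ℕ} {y : ℝ} (hy : 0 < y)
    (hK : 1 ≤ K) :
    LG (fun _ => 0) ws K (fun _ _ x => Complex.sin (x + y * Complex.I))
      (fun l w => if l = 0 then Complex.log (Complex.sin (w.2 + y * Complex.I)) else 0) := by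
  have hc : Continuous fun z : ℂ => Complex.sin (z + y * Complex.I) := by fun_prop
  have hev : ∀ᶠ z : ℂ in 𝓝 0, Complex.sin (z + y * Complex.I) ≠ 0 := by
    have h0 : Complex.sin (0 + y * Complex.I) ≠ 0 := by
      rw [zero_add]
      exact Complex.slitPlane_ne_zero (sin_axis hy)
    exact hc.continuousAt.eventually_ne h0
  obtain ⟨r₀, hr₀, hne⟩ := Metric.eventually_nhds_iff.1 hev
  refine lg_axis (f := fun z => Complex.sin (z + y * Complex.I))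
    (L := fun z => Complex.log (Complex.sin (z + y * Complex.I))) hK hr₀ ?_
  intro x hx
  rw [Complex.exp_log]
  apply hne
  rw [dist_zero_right, Complex.norm_real, Real.norm_eq_abs]
  exact hx

end Pool.Agent.Y865.TA
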