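import Pool.Agent.Y865.TA.Lg

/-!
# The Turk's head links: the coefficients of the logarithm of the summand
-/

set_option autoImplicit false

namespace Pool.Agent.Y865.TA

open Finset Filter Topology MeasureTheory Pool.Agent.W711.HT Pool.Agent.Y472.K Pool.Agent.Y472.L
  Pool.Agent.Y363.TKX
open scoped Real

theorem pI_ne : pI ≠ 0 := by
  unfold pI
  simp [Real.pi_ne_zero]

section jt

variable {ι : Type} [Fintype ι] {E : Subfield ℂ} {κ : ℂ} {p₀ : (ι → ℂ) × ℂ}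

theorem jt_zero (hA : S_JTA) (hκ : κ ≠ 0) (m : ℤ) (k₀ : ℕ) :
    Jt E κ p₀ m k₀ (fun _ => 0) := by
  obtain ⟨a1, a2, a3, a4, a5, a6, a7, a8, a9⟩ := hA ι E κ p₀ hκ
  have h1 := a7 0 m 0 _ (a1 0 E.zero_mem)
  rw [add_zero] at h1
  have h2 : (fun p : (ι → ℂ) × ℂ => pI ^ m * (0 : ℂ)) = fun _ => 0 := by
    funext p
    rw [mul_zero]
  rw [h2] at h1
  exact a8 m 0 k₀ _ (Nat.zero_le _) h1

theorem jt_add (hA : S_JTA) (hκ : κ ≠ 0) {m : ℤ} {k₀ : ℕ} {f g : (ι → ℂ) × ℂ → ℂ}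
    (hf : Jt E κ p₀ m k₀ f) (hg : Jt E κ p₀ m k₀ g) : Jt E κ p₀ m k₀ fun p => f p + g p :=
  (hA ι E κ p₀ hκ).2.2.1 m k₀ f g hf hg

theorem jt_smul (hA : S_JTA) (hκ : κ ≠ 0) {m : ℤ} {k₀ : ℕ} {f : (ι → ℂ) × ℂ → ℂ} {c : ℂ}
    (hc : c ∈ E) (hf : Jt E κ p₀ m k₀ f) : Jt E κ p₀ m k₀ fun p => c * f p :=
  (hA ι E κ p₀ hκ).2.2.2.1 m k₀ f c hc hf

theorem jt_sub (hA : S_JTA) (hκ : κ ≠ 0) {m : ℤ} {k₀ : ℕ} {f g : (ι → ℂ) × ℂ → ℂ}
    (hf : Jt E κ p₀ m k₀ f) (hg : Jt E κ p₀ m k₀ g) : Jt E κ p₀ m k₀ fun p => f p - g p := by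
  have h1 := jt_add hA hκ hf (jt_smul hA hκ (E.neg_mem E.one_mem) hg)
  have h2 : (fun p => f p + -1 * g p) = fun p => f p - g p := by
    funext p
    ring
  rwa [h2] at h1

theorem jt_congr (hA : S_JTA) (hκ : κ ≠ 0) {m : ℤ} {k₀ : ℕ} {f g : (ι → ℂ) × ℂ → ℂ}
    (h : f =ᶠ[𝓝 p₀] g) (hf : Jt E κ p₀ m k₀ f) : Jt E κ p₀ m k₀ g :=
  (hA ι E κ p₀ hκ).2.2.2.2.2.2.2.2 m k₀ f g h hf

theorem jt_pI (hA : S_JTA) (hκ : κ ≠ 0) {m : ℤ} (l : ℤ) {k₀ : ℕ} {f : (ι → ℂ) × ℂ → ℂ}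
    (hf : Jt E κ p₀ m k₀ f) : Jt E κ p₀ (l + m) k₀ fun p => pI ^ l * f p :=
  (hA ι E κ p₀ hκ).2.2.2.2.2.2.1 m l k₀ f hf

theorem jt_sum (hA : S_JTA) (hκ : κ ≠ 0) {m : ℤ} {k₀ : ℕ} {α : Type} (s : Finset α)
    (f : α → (ι → ℂ) × ℂ → ℂ) (hf : ∀ a ∈ s, Jt E κ p₀ m k₀ (f a)) :
    Jt E κ p₀ m k₀ fun p => ∑ a ∈ s, f a p := by
  classical
  induction s using Finset.induction_on with
  | empty => simpa using jt_zero hA hκ m k₀
  | insert a s ha ih =>
    have h1 := jt_add hA hκ (hf a (mem_insert_self _ _)) (ih fun b hb => hf b (mem_insert_of_mem hb))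
    simp only [Finset.sum_insert ha]
    exact h1

theorem rat_mem (E : Subfield ℂ) (c : ℚ) : (c : ℂ) ∈ E := SubfieldClass.ratCast_mem E c

end jt

section fac

variable {ι : Type} [Fintype ι] {E : Subfield ℂ} {κ : ℂ} {ws : ι → ℝ}

theorem tend_line (t : (ι → ℝ) × ℝ) (p₀ : (ι → ℂ) × ℂ) (p : ι) :
    Tendsto (fun z : ℂ => (p₀ + z • cst t).1 p) (𝓝 0) (𝓝 (p₀.1 p)) := by
  have h : Continuous fun z : ℂ => (p₀ + z • cst t).1 p := by
    simp only [Prod.fst_add, Prod.smul_fst, Pi.add_apply, Pi.smul_apply, smul_eq_mul]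
    fun_prop
  have h1 := h.tendsto 0
  simpa using h1

theorem tend_line' (t : (ι → ℝ) × ℝ) (p₀ : (ι → ℂ) × ℂ) :
    Tendsto (fun z : ℂ => (p₀ + z • cst t).2) (𝓝 0) (𝓝 (p₀.2)) := by
  have h : Continuous fun z : ℂ => (p₀ + z • cst t).2 := by
    simp only [Prod.snd_add, Prod.smul_snd, smul_eq_mul]
    fun_prop
  have h1 := h.tendsto 0
  simpa using h1

/-- the functions `σ_0` -/
theorem jt_sd0 (hA : S_JTA) (hD : S_JTD) [DecidableEq ι] (hκ : κ ≠ 0) {σ : ℂ → ℂ} (p q : ι)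
    (han : AnalyticAt ℂ σ ((ws p - ws q : ℝ) : ℂ))
    (hσ : ∀ᶠ w in 𝓝 ((ws p - ws q : ℝ) : ℂ), deriv σ w = -(1 / 2) * ct1 0 w)
    (hct : Jt E κ (cst (ws, 0)) ((0 : ℕ) + 1) 0 fun w => ct1 0 (w.1 p - w.1 q)) :
    Jt E κ (cst (ws, 0)) 0 1 fun w => σ (w.1 p - w.1 q) := by
  have e0 : (cst (ws, (0 : ℝ))).1 p - (cst (ws, (0 : ℝ))).1 q = ((ws p - ws q : ℝ) : ℂ) := by
    simp [cst]
  have h0 := jt_pI hA hκ (-1) hct
  have e1 : (-1 : ℤ) + (((0 : ℕ) : ℤ) + 1) = 0 := by norm_num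
  rw [e1] at h0
  have hhalf : (-(1 / 2) : ℂ) ∈ E := by
    have := rat_mem E (-(1 / 2))
    push_cast at this
    exact this
  refine (hD ι E κ (cst (ws, 0)) hκ).1 0 _
    (fun a w => ((if a = p then (1 : ℂ) else 0) - (if a = q then 1 else 0)) *
      (-(1 / 2) * (pI ^ (-1 : ℤ) * ct1 0 (w.1 p - w.1 q)))) (fun _ => 0)
    (an_sd han) ?_ (jt_zero hA hκ _ _) ?_
  · intro a
    refine jt_smul hA hκ ?_ (jt_smul hA hκ hhalf h0)
    refine E.sub_mem ?_ ?_
    · split_ifs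
      · exact E.one_mem
      · exact E.zero_mem
    · split_ifs
      · exact E.one_mem
      · exact E.zero_mem
  · intro t
    have hw : Tendsto (fun z : ℂ => (cst (ws, (0 : ℝ)) + z • cst t).1 p -
        (cst (ws, (0 : ℝ)) + z • cst t).1 q) (𝓝 0) (𝓝 ((ws p - ws q : ℝ) : ℂ)) := by
      rw [← e0]
      exact (tend_line t _ p).sub (tend_line t _ q)
    filter_upwards [hw.eventually hσ, hw.eventually han.eventually_analyticAt] with z h1 h2
    have h3 : HasDerivAt (fun s : ℂ => (cst (ws, (0 : ℝ)) + s • cst t).1 p -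
        (cst (ws, (0 : ℝ)) + s • cst t).1 q) ((t.1 p : ℂ) - t.1 q) z := by
      have e2 : (fun s : ℂ => (cst (ws, (0 : ℝ)) + s • cst t).1 p -
          (cst (ws, (0 : ℝ)) + s • cst t).1 q) =
          fun s : ℂ => ((ws p : ℂ) - ws q) + s * ((t.1 p : ℂ) - t.1 q) := by
        funext s
        simp only [cst, Prod.fst_add, Prod.smul_fst, Pi.add_apply, Pi.smul_apply, smul_eq_mul]
        ring
      rw [e2]
      have h4 := ((hasDerivAt_id z).mul_const ((t.1 p : ℂ) - t.1 q)).const_add ((ws p : ℂ) - ws q)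
      simpa using h4
    have h4 := (h2.differentiableAt.hasDerivAt.comp z h3).deriv
    have e3 : (σ ∘ fun s : ℂ => (cst (ws, (0 : ℝ)) + s • cst t).1 p -
        (cst (ws, (0 : ℝ)) + s • cst t).1 q) = fun s : ℂ => σ ((cst (ws, (0 : ℝ)) + s • cst t).1 p -
        (cst (ws, (0 : ℝ)) + s • cst t).1 q) := rfl
    rw [e3] at h4
    rw [h4, h1]
    have e4 : ∑ a, (pI * (t.1 a : ℂ)) * (((if a = p then (1 : ℂ) else 0) - (if a = q then 1 else 0)) *
        (-(1 / 2) * (pI ^ (-1 : ℤ) * ct1 0 ((cst (ws, (0 : ℝ)) + z • cst t).1 p -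
          (cst (ws, (0 : ℝ)) + z • cst t).1 q)))) =
        (∑ a, ((if a = p then (t.1 a : ℂ) else 0) - (if a = q then (t.1 a : ℂ) else 0))) *
        (pI * pI ^ (-1 : ℤ)) *
        (-(1 / 2) * ct1 0 ((cst (ws, (0 : ℝ)) + z • cst t).1 p -
          (cst (ws, (0 : ℝ)) + z • cst t).1 q)) := by
      rw [Finset.sum_mul, Finset.sum_mul]
      refine Finset.sum_congr rfl fun a _ => ?_
      split_ifs <;> ring
    rw [e4, Finset.sum_sub_distrib, Finset.sum_ite_eq' Finset.univ p, Finset.sum_ite_eq' Finset.univ q]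
    have e5 : pI * pI ^ (-1 : ℤ) = 1 := by
      rw [zpow_neg_one]
      exact mul_inv_cancel₀ pI_ne
    simp only [Finset.mem_univ, if_true, mul_zero, add_zero]
    rw [e5]
    ring

/-- the functions `θ_0` -/
theorem jt_q0 (hA : S_JTA) (hD : S_JTD) [DecidableEq ι] (hκ : κ ≠ 0) {θ : ℂ → ℂ → ℂ} (p : ι)
    {y : ℝ}
    (han : AnalyticAt ℂ (fun p : ℂ × ℂ => θ p.1 p.2) ((ws p : ℂ), y * Complex.I))
    (hθ : ∀ᶠ p in 𝓝 (((ws p : ℂ), y * Complex.I) : ℂ × ℂ),
      ∀ a b : ℂ, deriv (fun s : ℂ => θ (p.1 + s * a) (p.2 + s * b)) 0 =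
      (1 / 2) * (a * (4 * π * Complex.sin (2 * π * p.1) / dn p.1 p.2) -
        b * (2 * Complex.sin p.2 / dn p.1 p.2)))
    (hct : Jt E κ (cst (ws, 0)) ((0 : ℕ) + 1) 0 fun w => qt1 0 (w.1 p) (w.2 + y * Complex.I))
    (hs : Jt E κ (cst (ws, 0)) 0 0 fun w => 2 * Complex.sin (w.2 + y * Complex.I) /
      (κ * dn (w.1 p) (w.2 + y * Complex.I))) :
    Jt E κ (cst (ws, 0)) 0 1 fun w => θ (w.1 p) (w.2 + y * Complex.I) := by
  have h0 := jt_pI hA hκ (-1) hct
  have e1 : (-1 : ℤ) + (((0 : ℕ) : ℤ) + 1) = 0 := by norm_num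
  rw [e1] at h0
  have hhalf : ((1 / 2) : ℂ) ∈ E := by
    have := rat_mem E (1 / 2)
    push_cast at this
    exact this
  refine (hD ι E κ (cst (ws, 0)) hκ).1 0 _
    (fun a w => (if a = p then (1 : ℂ) else 0) *
      ((1 / 2) * (pI ^ (-1 : ℤ) * qt1 0 (w.1 p) (w.2 + y * Complex.I))))
    (fun w => (-(1 / 2)) * (2 * Complex.sin (w.2 + y * Complex.I) /
      (κ * dn (w.1 p) (w.2 + y * Complex.I))))
    (an_q han) ?_ (jt_smul hA hκ (E.neg_mem hhalf) hs) ?_
  · intro a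
    refine jt_smul hA hκ ?_ (jt_smul hA hκ hhalf h0)
    split_ifs
    · exact E.one_mem
    · exact E.zero_mem
  · intro t
    have hw : Tendsto (fun z : ℂ => ((cst (ws, (0 : ℝ)) + z • cst t).1 p,
        (cst (ws, (0 : ℝ)) + z • cst t).2 + y * Complex.I)) (𝓝 0)
        (𝓝 (((ws p : ℂ), y * Complex.I) : ℂ × ℂ)) := by
      refine Tendsto.prodMk_nhds ?_ ?_
      · exact tend_line t (cst (ws, 0)) p
      · have h1 := (tend_line' t (cst (ws, (0 : ℝ)))).add_const ((y : ℂ) * Complex.I)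
        have e2 : (cst (ws, (0 : ℝ))).2 + (y : ℂ) * Complex.I = y * Complex.I := by
          simp [cst]
        rw [e2] at h1
        exact h1
    filter_upwards [hw.eventually hθ] with z h1
    have h2 := h1 (t.1 p) t.2
    have h3 : deriv (fun s : ℂ => θ ((cst (ws, (0 : ℝ)) + s • cst t).1 p)
        ((cst (ws, (0 : ℝ)) + s • cst t).2 + y * Complex.I)) z =
        deriv (fun s : ℂ => θ ((cst (ws, (0 : ℝ)) + z • cst t).1 p + s * t.1 p)
        ((cst (ws, (0 : ℝ)) + z • cst t).2 + y * Complex.I + s * t.2)) 0 := by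
      have h4 := deriv_comp_const_add (f := fun s : ℂ => θ ((cst (ws, (0 : ℝ)) + s • cst t).1 p)
        ((cst (ws, (0 : ℝ)) + s • cst t).2 + y * Complex.I)) z 0
      rw [add_zero] at h4
      rw [← h4]
      congr 1
      funext s
      congr 1
      · simp only [cst, Prod.fst_add, Prod.smul_fst, Pi.add_apply, Pi.smul_apply, smul_eq_mul]
        ring
      · simp only [cst, Prod.snd_add, Prod.smul_snd, smul_eq_mul]
        ring
    rw [h3, h2]
    have e4 : ∑ a, (pI * (t.1 a : ℂ)) * ((if a = p then (1 : ℂ) else 0) *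
        ((1 / 2) * (pI ^ (-1 : ℤ) * qt1 0 ((cst (ws, (0 : ℝ)) + z • cst t).1 p)
          ((cst (ws, (0 : ℝ)) + z • cst t).2 + y * Complex.I)))) =
        (∑ a, (if a = p then (t.1 a : ℂ) else 0)) * (pI * pI ^ (-1 : ℤ)) *
        ((1 / 2) * qt1 0 ((cst (ws, (0 : ℝ)) + z • cst t).1 p)
          ((cst (ws, (0 : ℝ)) + z • cst t).2 + y * Complex.I)) := by
      rw [Finset.sum_mul, Finset.sum_mul]
      refine Finset.sum_congr rfl fun a _ => ?_
      split_ifs <;> ring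
    rw [e4, Finset.sum_ite_eq' Finset.univ p]
    have e5 : pI * pI ^ (-1 : ℤ) = 1 := by
      rw [zpow_neg_one]
      exact mul_inv_cancel₀ pI_ne
    simp only [Finset.mem_univ, if_true]
    rw [e5]
    have e6 : ∀ w χ : ℂ, qt1 0 w χ = 4 * π * Complex.sin (2 * π * w) / dn w χ := by
      intro w χ
      unfold qt1
      rw [iteratedDeriv_zero]
    rw [e6]
    have e7 : ∀ S d : ℂ, κ * (t.2 : ℂ) * (-(1 / 2) * (2 * S / (κ * d))) =
        -(1 / 2) * (t.2 * (2 * S / d)) := by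
      intro S d
      rcases eq_or_ne d 0 with hd | hd
      · rw [hd]
        simp
      · field_simp
    rw [e7]
    ring

/-- the logarithm of the sine -/
theorem jt_sin0 (hA : S_JTA) (hD : S_JTD) (hκ : κ ≠ 0) {y : ℝ} (hy : 0 < y)
    (hc : Jt E κ (cst (ws, 0)) 0 0 fun w => Complex.cos (w.2 + y * Complex.I) /
      (κ * Complex.sin (w.2 + y * Complex.I))) :
    Jt E κ (cst (ws, 0)) 0 1 fun w => Complex.log (Complex.sin (w.2 + y * Complex.I)) := by
  have e2 : (cst (ws, (0 : ℝ))).2 + (y : ℂ) * Complex.I = y * Complex.I := by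
    simp [cst]
  refine (hD ι E κ (cst (ws, 0)) hκ).1 0 _ (fun _ _ => 0)
    (fun w => Complex.cos (w.2 + y * Complex.I) / (κ * Complex.sin (w.2 + y * Complex.I)))
    ?_ (fun _ => jt_zero hA hκ _ _) hc ?_
  · refine AnalyticAt.clog ?_ ?_
    · have h1 : AnalyticAt ℂ (fun w : (ι → ℂ) × ℂ => w.2 + (y : ℂ) * Complex.I) (cst (ws, (0 : ℝ))) :=
        analyticAt_snd.add analyticAt_const
      exact AnalyticAt.comp (g := Complex.sin)
        (f := fun w : (ι → ℂ) × ℂ => w.2 + (y : ℂ) * Complex.I) Complex.analyticAt_sin h1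
    · rw [e2]
      exact sin_axis hy
  · intro t
    have hw : Tendsto (fun z : ℂ => Complex.sin ((cst (ws, (0 : ℝ)) + z • cst t).2 + y * Complex.I))
        (𝓝 0) (𝓝 (Complex.sin (y * Complex.I))) := by
      have h1 := (tend_line' t (cst (ws, (0 : ℝ)))).add_const ((y : ℂ) * Complex.I)
      rw [e2] at h1
      exact (Complex.continuous_sin.tendsto _).comp h1
    filter_upwards [hw.eventually (Complex.isOpen_slitPlane.mem_nhds (sin_axis hy))] with z h1
    have h3 : HasDerivAt (fun s : ℂ => (cst (ws, (0 : ℝ)) + s • cst t).2 + y * Complex.I)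
        (t.2 : ℂ) z := by
      have e3 : (fun s : ℂ => (cst (ws, (0 : ℝ)) + s • cst t).2 + y * Complex.I) =
          fun s : ℂ => (y * Complex.I) + s * (t.2 : ℂ) := by
        funext s
        simp only [cst, Prod.snd_add, Prod.smul_snd, smul_eq_mul]
        push_cast
        ring
      rw [e3]
      have h4 := ((hasDerivAt_id z).mul_const (t.2 : ℂ)).const_add ((y : ℂ) * Complex.I)
      simpa using h4
    have h4 := (h3.csin.clog h1).deriv
    rw [h4]
    simp only [mul_zero, Finset.sum_const_zero, zero_add]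
    have h5 : Complex.sin ((cst (ws, (0 : ℝ)) + z • cst t).2 + y * Complex.I) ≠ 0 :=
      Complex.slitPlane_ne_zero h1
    field_simp

end fac

/-- LGJ -/
theorem lgj : Pool.Agent.Y472.L.S_LGJ := by
  intro hPAR hA hB hD hSR hQR hBF Lx σ c hSD n _ hn Θ θ c' hQD K hK
  obtain ⟨-, -, -, -, hy, -, hb1, hb2, -⟩ := hPAR n hn
  obtain ⟨hLx, hσan, hσ, hS⟩ := hSD
  obtain ⟨hΘan, hθan, -, hθ, hθs, r₀, hr₀, hint, hQ⟩ := hQD
  have wl : ∀ r : Fin n, wst n (Sum.inl r) = 1 - bs n := fun r => rfl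
  have wr : ∀ r : Fin n, wst n (Sum.inr r) = bs n := fun r => rfl
  have hd : ∀ r r' : Fin n, 0 < wst n (Sum.inl r) - wst n (Sum.inr r') ∧
      wst n (Sum.inl r) - wst n (Sum.inr r') < 1 := by
    intro r r'
    rw [wl, wr]
    constructor <;> linarith
  refine ⟨fun l w => (∑ r : Fin n, ((σ l (w.1 (Sum.inl r) - w.1 (Sum.inr r)) +
    σ l (w.1 (Sum.inl (r + 1)) - w.1 (Sum.inr r))) +
    (θ l (w.1 (Sum.inl (r + 1))) (w.2 + yn n * Complex.I) -
      θ l (w.1 (Sum.inr r)) (w.2 + yn n * Complex.I)))) +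
    (if l = 0 then Complex.log (Complex.sin (w.2 + yn n * Complex.I)) else 0), ?_, ?_, ?_⟩
  · -- the coefficients
    intro E hz l hl
    obtain ⟨hκ, -, hch, hE1, hE2, hE3, hsin, hdn1, hdn2, -, -⟩ := hBF hPAR n hn E hz
    have hp2 : (cst (wst n, (0 : ℝ))).2 = 0 := by simp [cst]
    -- the functions of `S_SRJ` and `S_QRJ`
    have hct : ∀ (r r' : Fin n) (k : ℕ), Jt E (ks n) (cst (wst n, 0)) ((k : ℤ) + 1) 0
        fun p => ct1 k (p.1 (Sum.inl r) - p.1 (Sum.inr r')) :=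
      fun r r' k => hSR hA hB (Fin n ⊕ Fin n) E (ks n) (cst (wst n, 0)) (Sum.inl r) (Sum.inr r') hκ
        hE3 hsin k
    have hql : ∀ r : Fin n, _ := fun r => hQR hA hB (Fin n ⊕ Fin n) E (ks n) (cst (wst n, 0))
      (Sum.inl r) (yn n) hκ rfl hch hp2 hE1 hdn1
    have hqr : ∀ r : Fin n, _ := fun r => hQR hA hB (Fin n ⊕ Fin n) E (ks n) (cst (wst n, 0))
      (Sum.inr r) (yn n) hκ rfl hch hp2 hE2 hdn2
    have hwl : ∀ r : Fin n, 0 ≤ wst n (Sum.inl r) ∧ wst n (Sum.inl r) ≤ 1 := by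
      intro r
      rw [wl]
      constructor <;> linarith
    have hwr : ∀ r : Fin n, 0 ≤ wst n (Sum.inr r) ∧ wst n (Sum.inr r) ≤ 1 := by
      intro r
      rw [wr]
      constructor <;> linarith
    rcases Nat.eq_zero_or_pos l with h0 | h0
    · subst h0
      simp only [if_true, Nat.cast_zero]
      have hσ0 : ∀ r r' : Fin n, Jt E (ks n) (cst (wst n, 0)) 0 1
          fun w => σ 0 (w.1 (Sum.inl r) - w.1 (Sum.inr r')) := by
        intro r r'
        obtain ⟨h1, h2⟩ := hd r r'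
        refine jt_sd0 hA hD hκ (Sum.inl r) (Sum.inr r') (hσan 0 _ h1 h2) ?_ (hct r r' 0)
        filter_upwards [(hσ _ h1 h2).2] with w hw
        exact hw.1
      have hθl : ∀ r : Fin n, Jt E (ks n) (cst (wst n, 0)) 0 1
          fun w => θ 0 (w.1 (Sum.inl r)) (w.2 + yn n * Complex.I) := by
        intro r
        refine jt_q0 hA hD hκ (Sum.inl r) (hθan 0 _ (hwl r).1 (hwl r).2) ?_ ((hql r).1 0) (hql r).2.1
        filter_upwards [hθ _ (hwl r).1 (hwl r).2] with p hp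
        exact hp.1
      have hθr : ∀ r : Fin n, Jt E (ks n) (cst (wst n, 0)) 0 1
          fun w => θ 0 (w.1 (Sum.inr r)) (w.2 + yn n * Complex.I) := by
        intro r
        refine jt_q0 hA hD hκ (Sum.inr r) (hθan 0 _ (hwr r).1 (hwr r).2) ?_ ((hqr r).1 0) (hqr r).2.1
        filter_upwards [hθ _ (hwr r).1 (hwr r).2] with p hp
        exact hp.1
      refine jt_add hA hκ (jt_sum hA hκ _ _ fun r _ => jt_add hA hκ
        (jt_add hA hκ (hσ0 r r) (hσ0 (r + 1) r)) (jt_sub hA hκ (hθl (r + 1)) (hθr r))) ?_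
      exact jt_sin0 hA hD hκ hy (hql 0).2.2.2
    · obtain ⟨k, rfl⟩ : ∃ k, l = k + 1 := ⟨l - 1, by omega⟩
      have hk0 : k + 1 ≠ 0 := Nat.succ_ne_zero k
      simp only [hk0, if_false, add_zero]
      have ecast : ((k + 1 : ℕ) : ℤ) = (k : ℤ) + 1 := by push_cast; ring
      rw [ecast]
      have hσk : ∀ r r' : Fin n, Jt E (ks n) (cst (wst n, 0)) ((k : ℤ) + 1) 0
          fun w => σ (k + 1) (w.1 (Sum.inl r) - w.1 (Sum.inr r')) := by
        intro r r'
        obtain ⟨h1, h2⟩ := hd r r'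
        refine jt_congr hA hκ ?_ (jt_smul hA hκ (rat_mem E (c k)) (hct r r' k))
        have hw : Tendsto (fun w : (Fin n ⊕ Fin n → ℂ) × ℂ => w.1 (Sum.inl r) - w.1 (Sum.inr r'))
            (𝓝 (cst (wst n, (0 : ℝ)))) (𝓝 ((wst n (Sum.inl r) - wst n (Sum.inr r') : ℝ) : ℂ)) := by
          have h3 : Continuous fun w : (Fin n ⊕ Fin n → ℂ) × ℂ =>
              w.1 (Sum.inl r) - w.1 (Sum.inr r') := by fun_prop
          have h4 := h3.tendsto (cst (wst n, (0 : ℝ)))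
          have e0 : (cst (wst n, (0 : ℝ))).1 (Sum.inl r) - (cst (wst n, (0 : ℝ))).1 (Sum.inr r') =
              ((wst n (Sum.inl r) - wst n (Sum.inr r') : ℝ) : ℂ) := by
            simp [cst]
          rwa [e0] at h4
        filter_upwards [hw.eventually (hσ _ h1 h2).2] with w h3
        exact (h3.2 k).symm
      have hθk : ∀ s : Fin n ⊕ Fin n, 0 ≤ wst n s → wst n s ≤ 1 →
          (Jt E (ks n) (cst (wst n, 0)) ((k : ℤ) + 1) 0
            fun p => qt1 k (p.1 s) (p.2 + yn n * Complex.I)) →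
          Jt E (ks n) (cst (wst n, 0)) ((k : ℤ) + 1) 0
            fun w => θ (k + 1) (w.1 s) (w.2 + yn n * Complex.I) := by
        intro s h1 h2 hj
        refine jt_congr hA hκ ?_ (jt_smul hA hκ (rat_mem E (c' k)) hj)
        have hw : Tendsto (fun w : (Fin n ⊕ Fin n → ℂ) × ℂ => (w.1 s, w.2 + yn n * Complex.I))
            (𝓝 (cst (wst n, (0 : ℝ)))) (𝓝 (((wst n s : ℂ), yn n * Complex.I) : ℂ × ℂ)) := by
          have h3 : Continuous fun w : (Fin n ⊕ Fin n → ℂ) × ℂ =>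
              (w.1 s, w.2 + (yn n : ℂ) * Complex.I) := by fun_prop
          have h4 := h3.tendsto (cst (wst n, (0 : ℝ)))
          have e0 : ((cst (wst n, (0 : ℝ))).1 s, (cst (wst n, (0 : ℝ))).2 + (yn n : ℂ) * Complex.I) =
              ((wst n s : ℂ), (yn n : ℂ) * Complex.I) := by
            simp [cst]
          rwa [e0] at h4
        filter_upwards [hw.eventually (hθ _ h1 h2)] with w h3
        exact (h3.2 k).symm
      exact jt_sum hA hκ _ _ fun r _ => jt_add hA hκ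
        (jt_add hA hκ (hσk r r) (hσk (r + 1) r))
        (jt_sub hA hκ (hθk _ (hwl (r + 1)).1 (hwl (r + 1)).2 ((hql (r + 1)).1 k))
          (hθk _ (hwr r).1 (hwr r).2 ((hqr r).1 k)))
  · -- the value at the critical point
    have e1 : ∀ r r' : Fin n, (cst (wst n, (0 : ℝ))).1 (Sum.inl r) -
        (cst (wst n, (0 : ℝ))).1 (Sum.inr r') = ((1 - 2 * bs n : ℝ) : ℂ) := by
      intro r r'
      simp only [cst, wl, wr]
      push_cast
      ring
    have e2 : ∀ r : Fin n, (cst (wst n, (0 : ℝ))).1 (Sum.inl r) = ((1 - bs n : ℝ) : ℂ) := fun r => rfl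
    have e3 : ∀ r : Fin n, (cst (wst n, (0 : ℝ))).1 (Sum.inr r) = ((bs n : ℝ) : ℂ) := fun r => rfl
    have e4 : (cst (wst n, (0 : ℝ))).2 + (yn n : ℂ) * Complex.I = yn n * Complex.I := by
      simp [cst]
    have h5 := hθs (bs n) (by linarith) (by linarith)
    have h6 := (hσ (1 - 2 * bs n) (by linarith) (by linarith)).1
    have h7 : Real.sin (π * (1 - 2 * bs n)) = Real.sin (2 * π * bs n) := by
      rw [show π * (1 - 2 * bs n) = π - 2 * π * bs n by ring, Real.sin_pi_sub]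
    rw [h7] at h6
    have e5 : ((1 - bs n : ℝ) : ℂ) - ((bs n : ℝ) : ℂ) = ((1 - 2 * bs n : ℝ) : ℂ) := by
      push_cast
      ring
    simp only [e2, e3, e4, e5, if_true]
    rw [h5]
    simp only [sub_self, add_zero]
    rw [Complex.exp_add, Finset.sum_const, Finset.card_univ, Fintype.card_fin, nsmul_eq_mul,
      Complex.exp_nat_mul, Complex.exp_add, ← sq, h6,
      Complex.exp_log (Complex.slitPlane_ne_zero (sin_axis hy)), Complex.sin_mul_I, ks]
    rw [one_div, inv_pow]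
    push_cast
    ring
  · -- the expansion
    have h1 : ∀ r ∈ (Finset.univ : Finset (Fin n)),
        LG (fun w : (Fin n ⊕ Fin n → ℂ) × ℂ =>
          ((Complex.I * π * ((w.1 (Sum.inl r) - w.1 (Sum.inl (r + 1))) * w.1 (Sum.inr r)) +
          (Lx (w.1 (Sum.inl r) - w.1 (Sum.inr r)) + Lx (w.1 (Sum.inl (r + 1)) - w.1 (Sum.inr r)))) +
          (Θ (w.1 (Sum.inl (r + 1))) (w.2 + yn n * Complex.I) -
            Θ (w.1 (Sum.inr r)) (w.2 + yn n * Complex.I)))) (wst n) K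
          (fun N k x => (vN N ^ (((k (Sum.inl r) : ℤ) - k (Sum.inl (r + 1))) * k (Sum.inr r)) *
            ((((√(N : ℝ) : ℝ) : ℂ) / (Sd N (k (Sum.inl r) - k (Sum.inr r)) : ℂ)) *
            (((√(N : ℝ) : ℝ) : ℂ) / (Sd N (k (Sum.inl (r + 1)) - k (Sum.inr r)) : ℂ)))) *
            Pq N (k (Sum.inr r)) (k (Sum.inl (r + 1))) (x + yn n * Complex.I))
          (fun l w => (0 + (σ l (w.1 (Sum.inl r) - w.1 (Sum.inr r)) +
            σ l (w.1 (Sum.inl (r + 1)) - w.1 (Sum.inr r)))) +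
            (θ l (w.1 (Sum.inl (r + 1))) (w.2 + yn n * Complex.I) -
              θ l (w.1 (Sum.inr r)) (w.2 + yn n * Complex.I))) := by
      intro r _
      refine lg_mul (lg_mul (lg_v _ _ _) (lg_mul ?_ ?_)) ?_
      · exact lg_sd hS _ _ (hd r r).1 (hd r r).2
      · exact lg_sd hS _ _ (hd (r + 1) r).1 (hd (r + 1) r).2
      · refine lg_q hr₀ hQ _ _ ?_ ?_ ?_
        · rw [wr]; linarith
        · rw [wl, wr]; linarith
        · rw [wl]; linarith
    have h2 := lg_mul (lg_prod Finset.univ _ _ _ h1) (lg_mul (lg_sin hy hK) (lg_k hy))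
    refine lg_congr h2 (fun w => rfl) ?_ ?_
    · intro l w
      simp only [zero_add, add_zero]
    · filter_upwards with N k x
      unfold TT co Qc
      have hN : (N : ℂ) ^ n = ∏ _r : Fin n, (((√(N : ℝ) : ℝ) : ℂ) * ((√(N : ℝ) : ℝ) : ℂ)) := by
        rw [Finset.prod_const, Finset.card_univ, Fintype.card_fin, ← Complex.ofReal_mul,
          Real.mul_self_sqrt (Nat.cast_nonneg N), Complex.ofReal_natCast]
      rw [hN]
      have e : ∀ A B C D E : ℂ, A * (B * (C * D * E)) = (A * B * D) * (C * E) := by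
        intro A B C D E; ring
      rw [e, ← Finset.prod_mul_distrib, ← Finset.prod_mul_distrib]
      congr 1
      refine Finset.prod_congr rfl fun r _ => ?_
      ring

end Pool.Agent.Y865.TA
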